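import Pool.Agent.H643.HE.KSCore

/-!
# Lower bound for the two-dimensional Riemann sums of a logarithmic kernel
-/

set_option autoImplicit false

namespace Pool.Agent.H116.HE

open MeasureTheory Set Filter Topology
open Pool.Agent.H643.HE

noncomputable section

variable {R ρ : ℝ}

/-- a function which decreases with the distance from the origin -/
structure Uni (R : ℝ) (G : ℝ → ℝ) : Prop where
  int : Integrable G
  anti : ∀ a b : ℝ, |a| ≤ |b| → G b ≤ G a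
  zero : ∀ a : ℝ, R ≤ |a| → G a = 0
  nonneg : ∀ a, 0 ≤ G a

theorem Uni.cint {G : ℝ → ℝ} (hG : Uni R G) {σ : ℝ} (hσ : 0 < σ) (x a b : ℝ) :
    IntervalIntegrable (fun u => G (x - σ * u)) volume a b := by
  have : Integrable (fun u => G (x - σ * u)) := hG.int.comp_sub_left x |>.comp_mul_left' hσ.ne'
  exact this.intervalIntegrable

/-- the integral over the grid -/
theorem Uni.grid {G : ℝ → ℝ} (hG : Uni R G) (hR : 0 < R) {σ x : ℝ} {N : ℕ} (hσ : 0 < σ)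
    (hx : R ≤ x) (hN : x + R ≤ σ * N) :
    ∫ y, G y = σ * ∫ u in (0 : ℝ)..N, G (x - σ * u) := by
  have e2 : ∫ y, G y = ∫ y in (x - σ * N)..(x - σ * 0), G y := by
    rw [intervalIntegral.integral_of_le (by
      rw [mul_zero]; have := hσ.le; nlinarith [Nat.cast_nonneg (α := ℝ) N])]
    symm
    refine setIntegral_eq_integral_of_forall_compl_eq_zero ?_
    intro y hy
    refine hG.zero _ ?_
    by_contra hcon
    rw [not_le, abs_lt] at hcon
    exact hy ⟨by linarith, by linarith⟩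
  have e3 := intervalIntegral.integral_comp_sub_mul (a := 0) (b := (N : ℝ))
    (fun y => G y) hσ.ne' x
  rw [smul_eq_mul] at e3
  rw [e2, e3, ← mul_assoc, mul_inv_cancel₀ hσ.ne', one_mul]

/-- the position of `x` -/
theorem pos {σ x : ℝ} {N : ℕ} (hσ : 0 < σ) (hR : 0 < R) (hx : R ≤ x) (hN : x + R ≤ σ * N) :
    ∃ i0 M : ℕ, (i0 : ℝ) * σ ≤ x ∧ x < ((i0 : ℝ) + 1) * σ ∧ N = i0 + 1 + M := by
  have hx0 : 0 ≤ x := by linarith
  have h1 : ((⌊x / σ⌋₊ : ℕ) : ℝ) * σ ≤ x := by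
    have := Nat.floor_le (show 0 ≤ x / σ by positivity)
    rwa [le_div_iff₀ hσ] at this
  have h2 : x < ((⌊x / σ⌋₊ : ℝ) + 1) * σ := by
    have := Nat.lt_floor_add_one (x / σ)
    rwa [div_lt_iff₀ hσ] at this
  have h3 : ⌊x / σ⌋₊ + 1 ≤ N := by
    have : (⌊x / σ⌋₊ : ℝ) < N := by
      have : (⌊x / σ⌋₊ : ℝ) * σ < N * σ := by linarith
      exact lt_of_mul_lt_mul_right this hσ.le
    exact_mod_cast this
  obtain ⟨M, hM⟩ := Nat.exists_eq_add_of_le h3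
  exact ⟨⌊x / σ⌋₊, M, h1, h2, hM⟩

theorem Uni.mono {G : ℝ → ℝ} (hG : Uni R G) {σ x : ℝ} (hσ : 0 < σ) {i0 : ℕ}
    (h1 : (i0 : ℝ) * σ ≤ x) : MonotoneOn (fun u => G (x - σ * u)) (Icc 0 (0 + (i0 : ℝ))) := by
  intro a ha b hb hab
  refine hG.anti _ _ ?_
  rw [zero_add] at ha hb
  have hbx : σ * b ≤ x := by nlinarith [hb.2]
  have hax : σ * a ≤ σ * b := mul_le_mul_of_nonneg_left hab hσ.le
  rw [abs_of_nonneg (by linarith), abs_of_nonneg (by linarith)]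
  linarith

theorem Uni.antit {G : ℝ → ℝ} (hG : Uni R G) {σ x : ℝ} (hσ : 0 < σ) {i0 M : ℕ}
    (h2 : x < ((i0 : ℝ) + 1) * σ) :
    AntitoneOn (fun u => G (x - σ * u)) (Icc ((i0 : ℝ) + 1) ((i0 : ℝ) + 1 + (M : ℕ))) := by
  intro a ha b hb hab
  refine hG.anti _ _ ?_
  have hax : x ≤ σ * a := by nlinarith [ha.1]
  have hbx : σ * a ≤ σ * b := mul_le_mul_of_nonneg_left hab hσ.le
  rw [abs_of_nonpos (by linarith), abs_of_nonpos (by linarith)]
  linarith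

theorem Uni.riemann {G : ℝ → ℝ} (hG : Uni R G) (hR : 0 < R) {σ x B : ℝ} {N : ℕ} (hσ : 0 < σ)
    (hx : R ≤ x) (hN : x + R ≤ σ * N)
    (hB : ∀ a : ℝ, ∫ u in a..(a + 1), G (x - σ * u) ≤ B) :
    ∫ y, G y ≤ σ * (∑ i ∈ Finset.range (N + 1), G (x - σ * i) + B) := by
  rw [hG.grid hR hσ hx hN]
  refine mul_le_mul_of_nonneg_left ?_ hσ.le
  set F : ℝ → ℝ := fun u => G (x - σ * u) with hF
  have hFint : ∀ a b : ℝ, IntervalIntegrable F volume a b := hG.cint hσ x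
  obtain ⟨i0, M, h1, h2, rfl⟩ := pos hσ hR hx hN
  have hL : ∫ u in (0 : ℝ)..(i0 : ℝ), F u ≤ ∑ i ∈ Finset.range i0, F ((i + 1 : ℕ) : ℝ) := by
    have := (hG.mono hσ h1).integral_le_sum
    simpa using this
  have hMd : ∫ u in (i0 : ℝ)..((i0 : ℝ) + 1), F u ≤ B := hB _
  have hRt : ∫ u in ((i0 : ℝ) + 1)..((i0 : ℝ) + 1 + M), F u ≤
      ∑ i ∈ Finset.range M, F ((i0 : ℝ) + 1 + i) :=
    (hG.antit hσ h2 (M := M)).integral_le_sum
  have hsum : ∑ i ∈ Finset.range (i0 + 1 + M + 1), F (i : ℝ) =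
      F 0 + ∑ i ∈ Finset.range i0, F ((i + 1 : ℕ) : ℝ) + ∑ i ∈ Finset.range M, F ((i0 : ℝ) + 1 + i) +
        F ((i0 : ℝ) + 1 + M) := by
    rw [Finset.sum_range_succ, Finset.sum_range_add, Finset.sum_range_succ']
    push_cast
    ring
  have hsplit : ∫ u in (0 : ℝ)..((i0 + 1 + M : ℕ) : ℝ), F u =
      (∫ u in (0 : ℝ)..(i0 : ℝ), F u) + (∫ u in (i0 : ℝ)..((i0 : ℝ) + 1), F u) +
        ∫ u in ((i0 : ℝ) + 1)..((i0 : ℝ) + 1 + M), F u := by
    rw [intervalIntegral.integral_add_adjacent_intervals (hFint _ _) (hFint _ _),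
      intervalIntegral.integral_add_adjacent_intervals (hFint _ _) (hFint _ _)]
    push_cast
    rfl
  have hp1 : 0 ≤ F 0 := hG.nonneg _
  have hp2 : 0 ≤ F ((i0 : ℝ) + 1 + M) := hG.nonneg _
  change ∫ u in (0 : ℝ)..((i0 + 1 + M : ℕ) : ℝ), F u ≤
    ∑ i ∈ Finset.range (i0 + 1 + M + 1), F (i : ℝ) + B
  rw [hsplit, hsum]
  linarith

/-- upper bound for a sum: all terms but two are bounded by the integral -/
theorem Uni.upper {G : ℝ → ℝ} (hG : Uni R G) (hR : 0 < R) {σ x B : ℝ} {N : ℕ} (hσ : 0 < σ)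
    (hx : R ≤ x) (hN : x + R ≤ σ * N) :
    ∑ i ∈ Finset.range (N + 1), min (G (x - σ * i)) B ≤ (∫ y, G y) / σ + 2 * B := by
  rw [hG.grid hR hσ hx hN, mul_div_cancel_left₀ _ hσ.ne']
  set F : ℝ → ℝ := fun u => G (x - σ * u) with hF
  have hFint : ∀ a b : ℝ, IntervalIntegrable F volume a b := hG.cint hσ x
  obtain ⟨i0, M, h1, h2, rfl⟩ := pos hσ hR hx hN
  have hL : ∑ i ∈ Finset.range i0, F (i : ℝ) ≤ ∫ u in (0 : ℝ)..(i0 : ℝ), F u := by
    have := (hG.mono hσ h1).sum_le_integral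
    simpa using this
  have hMd : 0 ≤ ∫ u in (i0 : ℝ)..((i0 : ℝ) + 1), F u :=
    intervalIntegral.integral_nonneg (by linarith) fun u _ => hG.nonneg _
  have hRt : ∑ i ∈ Finset.range M, F ((i0 : ℝ) + 1 + ((i + 1 : ℕ) : ℝ)) ≤
      ∫ u in ((i0 : ℝ) + 1)..((i0 : ℝ) + 1 + M), F u :=
    (hG.antit hσ h2 (M := M)).sum_le_integral
  have hsplit : ∫ u in (0 : ℝ)..((i0 + 1 + M : ℕ) : ℝ), F u =
      (∫ u in (0 : ℝ)..(i0 : ℝ), F u) + (∫ u in (i0 : ℝ)..((i0 : ℝ) + 1), F u) +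
        ∫ u in ((i0 : ℝ) + 1)..((i0 : ℝ) + 1 + M), F u := by
    rw [intervalIntegral.integral_add_adjacent_intervals (hFint _ _) (hFint _ _),
      intervalIntegral.integral_add_adjacent_intervals (hFint _ _) (hFint _ _)]
    push_cast
    rfl
  have hsum : ∑ i ∈ Finset.range (i0 + 1 + M + 1), min (F (i : ℝ)) B =
      ∑ i ∈ Finset.range i0, min (F (i : ℝ)) B + min (F (i0 : ℝ)) B + min (F ((i0 : ℝ) + 1)) B +
        ∑ i ∈ Finset.range M, min (F ((i0 : ℝ) + 1 + ((i + 1 : ℕ) : ℝ))) B := by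
    rw [show i0 + 1 + M + 1 = (i0 + 1 + 1) + M by ring, Finset.sum_range_add,
      Finset.sum_range_succ, Finset.sum_range_succ]
    congr 1
    · push_cast
      rfl
    · refine Finset.sum_congr rfl fun i _ => ?_
      congr 2
      push_cast
      ring
  change ∑ i ∈ Finset.range (i0 + 1 + M + 1), min (F (i : ℝ)) B ≤
    (∫ u in (0 : ℝ)..((i0 + 1 + M : ℕ) : ℝ), F u) + 2 * B
  rw [hsum, hsplit]
  have k1 : ∑ i ∈ Finset.range i0, min (F (i : ℝ)) B ≤ ∑ i ∈ Finset.range i0, F (i : ℝ) :=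
    Finset.sum_le_sum fun i _ => min_le_left _ _
  have k2 : ∑ i ∈ Finset.range M, min (F ((i0 : ℝ) + 1 + ((i + 1 : ℕ) : ℝ))) B ≤
      ∑ i ∈ Finset.range M, F ((i0 : ℝ) + 1 + ((i + 1 : ℕ) : ℝ)) :=
    Finset.sum_le_sum fun i _ => min_le_left _ _
  have k3 : min (F (i0 : ℝ)) B ≤ B := min_le_right _ _
  have k4 : min (F ((i0 : ℝ) + 1)) B ≤ B := min_le_right _ _
  linarith

/-- the rows -/
theorem uni_row (hρ : 0 < ρ) (hR : 0 < R) (u : ℝ) :
    Uni R (fun s => kq R ρ (Real.sqrt (u ^ 2 + s ^ 2))) where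
  int := slice_int hρ hR u
  anti := by
    intro a b h
    refine kq_anti hρ hR (Real.sqrt_nonneg _) (Real.sqrt_le_sqrt ?_)
    have := sq_le_sq.2 h
    linarith
  zero := fun a ha => KK_zero (p := (u, a)) hρ hR (Or.inr ha)
  nonneg := fun _ => kq_nonneg _ _ _

theorem row_zero (u : ℝ) : kq R ρ (Real.sqrt (u ^ 2 + (0 : ℝ) ^ 2)) = kq R ρ |u| := by
  rw [zero_pow two_ne_zero, add_zero, Real.sqrt_sq_eq_abs]

theorem row_loss (hρ : 0 < ρ) (hR : 0 < R) {σ : ℝ} (hσ : 0 < σ) (u x a : ℝ) :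
    ∫ t in a..(a + 1), kq R ρ (Real.sqrt (u ^ 2 + (x - σ * t) ^ 2)) ≤
      min (kq R ρ |u|) (2 * R / σ) := by
  have hG := uni_row hρ hR u
  have hint := hG.cint hσ x a (a + 1)
  refine le_min ?_ ?_
  · have h4 : ∫ t in a..(a + 1), kq R ρ (Real.sqrt (u ^ 2 + (x - σ * t) ^ 2)) ≤
        ∫ t in a..(a + 1), kq R ρ |u| := by
      refine intervalIntegral.integral_mono_on (by linarith) hint intervalIntegrable_const ?_
      intro t _
      rw [← row_zero u]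
      exact hG.anti 0 _ (by simp)
    simpa using h4
  · have e3 := intervalIntegral.integral_comp_sub_mul (a := a) (b := a + 1)
      (fun s => kq R ρ (Real.sqrt (u ^ 2 + s ^ 2))) hσ.ne' x
    rw [smul_eq_mul] at e3
    rw [e3, intervalIntegral.integral_of_le (by nlinarith)]
    have h5 : ∫ s in Ioc (x - σ * (a + 1)) (x - σ * a), kq R ρ (Real.sqrt (u ^ 2 + s ^ 2)) ≤
        ∫ s, kq R ρ (Real.sqrt (u ^ 2 + s ^ 2)) :=
      setIntegral_le_integral hG.int (Eventually.of_forall hG.nonneg)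
    have h6 : ∫ s, kq R ρ (Real.sqrt (u ^ 2 + s ^ 2)) ≤ 2 * R := by
      have h7 : gg R ρ u ≤ gg R ρ 0 := gg_anti hρ hR (by simp)
      exact h7.trans (gg_top hρ hR)
    rw [div_eq_inv_mul]
    exact mul_le_mul_of_nonneg_left (h5.trans h6) (by positivity)

/-- the kernel on the line -/
theorem uni_abs (hρ : 0 < ρ) (hR : 0 < R) : Uni R (fun s => kq R ρ |s|) := by
  have h := uni_row hρ hR 0
  have e : (fun s : ℝ => kq R ρ (Real.sqrt ((0 : ℝ) ^ 2 + s ^ 2))) = fun s => kq R ρ |s| := by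
    funext s
    rw [zero_pow two_ne_zero, zero_add, Real.sqrt_sq_eq_abs]
  rwa [e] at h

theorem int_abs (hρ : 0 < ρ) (hR : 0 < R) : ∫ s, kq R ρ |s| ≤ 2 * R := by
  have h := gg_top hρ hR
  unfold gg at h
  have e : (fun s : ℝ => kq R ρ (Real.sqrt ((0 : ℝ) ^ 2 + s ^ 2))) = fun s => kq R ρ |s| := by
    funext s
    rw [zero_pow two_ne_zero, zero_add, Real.sqrt_sq_eq_abs]
  rwa [e] at h

theorem sum_Icc (M : ℕ) (f : ℤ → ℝ) :
    ∑ j ∈ Finset.Icc (-(M : ℤ)) M, f j = ∑ i ∈ Finset.range (2 * M + 1), f ((i : ℤ) - M) := by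
  symm
  refine Finset.sum_bij (fun i _ => (i : ℤ) - M) ?_ ?_ ?_ ?_
  · intro i hi
    rw [Finset.mem_range] at hi
    rw [Finset.mem_Icc]
    omega
  · intro i _ j _ h
    simpa using h
  · intro j hj
    rw [Finset.mem_Icc] at hj
    refine ⟨(j + M).toNat, ?_, ?_⟩
    · rw [Finset.mem_range]
      omega
    · omega
  · intro i _
    rfl

theorem core2 : ∃ C : ℝ, 0 < C ∧ ∀ (ρ R σ x y : ℝ) (N M : ℕ), 0 < ρ → ρ ≤ R → R ≤ 1 → 0 < σ →
    σ ≤ R → R ≤ x → x + R ≤ σ * N → |y| + R ≤ σ * M →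
    (Real.pi / 2 * R ^ 2 - C * (R * (ρ + σ))) / σ ^ 2 ≤
      ∑ i ∈ Finset.range (N + 1), ∑ j ∈ Finset.Icc (-(M : ℤ)) M,
        kq R ρ (Real.sqrt ((x - σ * i) ^ 2 + (y - σ * j) ^ 2)) := by
  obtain ⟨C, hC, hcore⟩ := core
  refine ⟨C + 6, by linarith, ?_⟩
  intro ρ R σ x y N M hρ hρR hR1 hσ hσR hx hN hM
  have hR : 0 < R := lt_of_lt_of_le hρ hρR
  have h1 := hcore ρ R σ x N hρ hρR hR1 hσ hσR hx hN
  -- one row
  have hrow : ∀ u : ℝ, (∫ s : ℝ, kq R ρ (Real.sqrt (u ^ 2 + s ^ 2))) / σ ≤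
      ∑ j ∈ Finset.Icc (-(M : ℤ)) M, kq R ρ (Real.sqrt (u ^ 2 + (y - σ * j) ^ 2)) +
        min (kq R ρ |u|) (2 * R / σ) := by
    intro u
    have hy := abs_le.1 (le_refl |y|)
    have hx' : R ≤ y + σ * M := by linarith [hy.1]
    have hN' : (y + σ * M) + R ≤ σ * ((2 * M : ℕ) : ℝ) := by
      push_cast
      linarith [hy.2]
    have h2 := (uni_row hρ hR u).riemann hR hσ hx' hN' (B := min (kq R ρ |u|) (2 * R / σ))
      (fun a => row_loss hρ hR hσ u _ a)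
    rw [div_le_iff₀ hσ, sum_Icc]
    refine h2.trans (le_of_eq ?_)
    rw [mul_comm σ]
    congr 2
    refine Finset.sum_congr rfl fun i _ => ?_
    congr 3
    push_cast
    ring
  have h3 : ∑ i ∈ Finset.range (N + 1),
      (∫ s : ℝ, kq R ρ (Real.sqrt ((x - σ * i) ^ 2 + s ^ 2))) / σ ≤
      ∑ i ∈ Finset.range (N + 1), (∑ j ∈ Finset.Icc (-(M : ℤ)) M,
        kq R ρ (Real.sqrt ((x - σ * i) ^ 2 + (y - σ * j) ^ 2)) +
        min (kq R ρ |x - σ * i|) (2 * R / σ)) :=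
    Finset.sum_le_sum fun i _ => hrow _
  rw [Finset.sum_add_distrib, ← Finset.sum_div] at h3
  have h4 := (uni_abs hρ hR).upper hR hσ hx hN (B := 2 * R / σ)
  have h5 : (∫ s, kq R ρ |s|) / σ ≤ 2 * R / σ :=
    div_le_div_of_nonneg_right (int_abs hρ hR) hσ.le
  have h6 : (Real.pi / 2 * R ^ 2 - C * (R * (ρ + σ))) / σ / σ ≤
      (∑ i ∈ Finset.range (N + 1), ∫ s : ℝ, kq R ρ (Real.sqrt ((x - σ * i) ^ 2 + s ^ 2))) / σ :=
    div_le_div_of_nonneg_right h1 hσ.le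
  have h7 : (Real.pi / 2 * R ^ 2 - (C + 6) * (R * (ρ + σ))) / σ ^ 2 ≤
      (Real.pi / 2 * R ^ 2 - C * (R * (ρ + σ))) / σ / σ - 3 * (2 * R / σ) := by
    have e : (Real.pi / 2 * R ^ 2 - C * (R * (ρ + σ))) / σ / σ - 3 * (2 * R / σ) =
        (Real.pi / 2 * R ^ 2 - C * (R * (ρ + σ)) - 6 * (R * σ)) / σ ^ 2 := by
      field_simp
      ring
    rw [e]
    refine div_le_div_of_nonneg_right ?_ (by positivity)
    have : 0 < R * ρ := by positivity
    nlinarith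
  linarith

end

end Pool.Agent.H116.HE
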