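import Pool.Agent.H466.HE.SC
import Pool.Agent.H116.HE.KS2Core

/-!
# KS2: lower bound for the two-dimensional Riemann sums of the logarithmic kernel
-/

set_option autoImplicit false

namespace Pool.Agent.H116.HE

open Pool.Agent.H466.HE (S_KS2)

theorem ks2 : S_KS2 := core2

end Pool.Agent.H116.HE
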